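import Pool.Agent.H58.HN.TargetsT

/-!
# Row TO: additivity on cycles
-/

set_option autoImplicit false

noncomputable section

namespace Pool.Agent.H35.HN

open Classical Pool.Agent.H58.HN
open scoped TensorProduct

section
variable {P : Type} [PartialOrder P]

theorem G_eq (n : ℕ) :
    G P n = Submodule.span ℚ {x | ∃ s : Ch P, s.1.card = n ∧ x = e s} := by
  unfold G Sp
  rw [Finsupp.supported_eq_span_single]
  congr 1
  ext x
  constructor
  · rintro ⟨s, hs, rfl⟩
    exact ⟨s, hs, rfl⟩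
  · rintro ⟨s, hs, rfl⟩
    exact ⟨s, hs, rfl⟩

theorem e_mem {s : Ch P} {n : ℕ} (h : s.1.card = n) : e s ∈ G P n := by
  rw [G_eq]
  exact Submodule.subset_span ⟨s, h, rfl⟩

/-- induction on the chains with `n` elements -/
theorem G_ind {n : ℕ} {p : CG P → Prop} (h : ∀ s : Ch P, s.1.card = n → p (e s)) (h0 : p 0)
    (ha : ∀ x y, p x → p y → p (x + y)) (hs : ∀ (a : ℚ) x, p x → p (a • x)) {c : CG P}
    (hc : c ∈ G P n) : p c := by
  rw [G_eq] at hc
  induction hc using Submodule.span_induction with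
  | mem x hx =>
    obtain ⟨s, h1, rfl⟩ := hx
    exact h s h1
  | zero => exact h0
  | add x y _ _ h1 h2 => exact ha x y h1 h2
  | smul a x _ h1 => exact hs a x h1

theorem bd_e (s : Ch P) : bd (e s) = ∑ x ∈ s.1, sg s x • e (er s x) := by
  unfold bd e
  rw [Finsupp.linearCombination_single, one_smul]

theorem AW_e (s : Ch P) : AW (e s) = ∑ x ∈ s.1, e (lo s x) ⊗ₜ[ℚ] e (hi s x) := by
  unfold AW e
  rw [Finsupp.linearCombination_single, one_smul]

theorem bp_e (s : Ch P) : bp (e s) = if 2 ≤ s.1.card then bd (e s) else 0 := by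
  unfold bp
  conv_lhs => unfold e
  rw [Finsupp.linearCombination_single, one_smul]
  rfl

theorem om_e (s : Ch P) : om (e s) = (-1 : ℚ) ^ (s.1.card + 1) • e s := by
  unfold om
  conv_lhs => unfold e
  rw [Finsupp.linearCombination_single, one_smul]
  rfl

theorem bd_nil : bd (e (nil : Ch P)) = 0 := by
  rw [bd_e]
  exact Finset.sum_empty

theorem bd_pt (x : P) : bd (e (pt x)) = e nil := by
  rw [bd_e]
  have h1 : (pt x : Ch P).1 = {x} := rfl
  rw [h1, Finset.sum_singleton]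
  have h2 : er (pt x) x = nil := Subtype.ext (by simp [er, pt, nil])
  have h4 : (pt x : Ch P).1.filter (fun y => y < x) = ∅ := by
    rw [h1]
    ext y
    simp only [Finset.mem_filter, Finset.mem_singleton, Finset.notMem_empty, iff_false, not_and]
    rintro rfl
    exact lt_irrefl _
  have h3 : sg (pt x) x = 1 := by
    unfold sg
    rw [h4, Finset.card_empty, pow_zero]
  rw [h2, h3, one_smul]

theorem bd_G {m : ℕ} {c : CG P} (hc : c ∈ G P (m + 1)) : bd c ∈ G P m := by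
  refine G_ind (p := fun c => bd c ∈ G P m) ?_ ?_ ?_ ?_ hc
  · intro s hs
    rw [bd_e]
    refine Submodule.sum_mem _ fun x hx => Submodule.smul_mem _ _ (e_mem ?_)
    have : (er s x).1 = s.1.erase x := rfl
    rw [this, Finset.card_erase_of_mem hx, hs]
    rfl
  · rw [map_zero]
    exact Submodule.zero_mem _
  · intro x y hx hy
    rw [map_add]
    exact Submodule.add_mem _ hx hy
  · intro a x hx
    rw [map_smul]
    exact Submodule.smul_mem _ _ hx

theorem bp_G {m : ℕ} (hm : 2 ≤ m) {c : CG P} (hc : c ∈ G P m) : bp c = bd c := by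
  refine G_ind (p := fun c => bp c = bd c) ?_ ?_ ?_ ?_ hc
  · intro s hs
    rw [bp_e, if_pos (by omega)]
  · rw [map_zero, map_zero]
  · intro x y hx hy
    rw [map_add, map_add, hx, hy]
  · intro a x hx
    rw [map_smul, map_smul, hx]

theorem om_G {m : ℕ} {c : CG P} (hc : c ∈ G P m) : om c = (-1 : ℚ) ^ (m + 1) • c := by
  refine G_ind (p := fun c => om c = (-1 : ℚ) ^ (m + 1) • c) ?_ ?_ ?_ ?_ hc
  · intro s hs
    rw [om_e, hs]
  · rw [map_zero, smul_zero]
  · intro x y hx hy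
    rw [map_add, hx, hy, smul_add]
  · intro a x hx
    rw [map_smul, hx, smul_comm]

/-- the span of the products of nonempty chains with `k` elements together -/
def E (P : Type) [PartialOrder P] (k : ℕ) : Submodule ℚ (CC P) :=
  Submodule.span ℚ {x | ∃ s t : Ch P, s.1.Nonempty ∧ t.1.Nonempty ∧ s.1.card + t.1.card = k ∧
    x = e s ⊗ₜ[ℚ] e t}

theorem ten_mem {i j k : ℕ} (hi : 1 ≤ i) (hj : 1 ≤ j) (hk : i + j = k) {a b : CG P}
    (ha : a ∈ G P i) (hb : b ∈ G P j) : a ⊗ₜ[ℚ] b ∈ E P k := by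
  refine G_ind (p := fun a => a ⊗ₜ[ℚ] b ∈ E P k) ?_ ?_ ?_ ?_ ha
  · intro s hs
    refine G_ind (p := fun b => e s ⊗ₜ[ℚ] b ∈ E P k) ?_ ?_ ?_ ?_ hb
    · intro t ht
      refine Submodule.subset_span ⟨s, t, ?_, ?_, by omega, rfl⟩
      · exact Finset.card_pos.mp (by omega)
      · exact Finset.card_pos.mp (by omega)
    · rw [TensorProduct.tmul_zero]
      exact Submodule.zero_mem _
    · intro x y hx hy
      rw [TensorProduct.tmul_add]
      exact Submodule.add_mem _ hx hy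
    · intro c x hx
      rw [TensorProduct.tmul_smul]
      exact Submodule.smul_mem _ _ hx
  · rw [TensorProduct.zero_tmul]
    exact Submodule.zero_mem _
  · intro x y hx hy
    rw [TensorProduct.add_tmul]
    exact Submodule.add_mem _ hx hy
  · intro c x hx
    rw [← TensorProduct.smul_tmul']
    exact Submodule.smul_mem _ _ hx

theorem D2_tmul (a b : CG P) : D2 (a ⊗ₜ[ℚ] b) = bp a ⊗ₜ[ℚ] b + om a ⊗ₜ[ℚ] bp b := by
  unfold D2
  rw [LinearMap.add_apply, TensorProduct.map_tmul, TensorProduct.map_tmul, LinearMap.id_apply]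

theorem card_lo_hi (s : Ch P) {x : P} (hx : x ∈ s.1) :
    (lo s x).1.card + (hi s x).1.card = s.1.card + 1 ∧ 1 ≤ (lo s x).1.card ∧
      1 ≤ (hi s x).1.card := by
  have h1 : (lo s x).1 = s.1.filter (fun y => y ≤ x) := rfl
  have h2 : (hi s x).1 = s.1.filter (fun y => x ≤ y) := rfl
  rw [h1, h2]
  have h3 : s.1.filter (fun y => y ≤ x) ∪ s.1.filter (fun y => x ≤ y) = s.1 := by
    ext y
    simp only [Finset.mem_union, Finset.mem_filter]
    constructor
    · rintro (h | h) <;> exact h.1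
    · intro h
      rcases s.2.total (Finset.mem_coe.2 h) (Finset.mem_coe.2 hx) with h4 | h4
      · exact Or.inl ⟨h, h4⟩
      · exact Or.inr ⟨h, h4⟩
  have h4 : s.1.filter (fun y => y ≤ x) ∩ s.1.filter (fun y => x ≤ y) = {x} := by
    ext y
    simp only [Finset.mem_inter, Finset.mem_filter, Finset.mem_singleton]
    constructor
    · rintro ⟨⟨-, h5⟩, -, h6⟩
      exact le_antisymm h5 h6
    · rintro rfl
      exact ⟨⟨hx, le_rfl⟩, hx, le_rfl⟩
  have h5 := Finset.card_union_add_card_inter (s.1.filter (fun y => y ≤ x))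
    (s.1.filter (fun y => x ≤ y))
  rw [h3, h4, Finset.card_singleton] at h5
  refine ⟨h5.symm, ?_, ?_⟩
  · exact Finset.card_pos.mpr ⟨x, Finset.mem_filter.mpr ⟨hx, le_rfl⟩⟩
  · exact Finset.card_pos.mpr ⟨x, Finset.mem_filter.mpr ⟨hx, le_rfl⟩⟩

/-! ### contractions -/

variable {σ : CG P →ₗ[ℚ] CG P} {n : ℕ}

theorem con_deg (h : Con P n σ) {m : ℕ} (hm : m < n) {c : CG P} (hc : c ∈ G P m) :
    σ c ∈ G P (m + 1) := by
  refine G_ind (p := fun c => σ c ∈ G P (m + 1)) ?_ ?_ ?_ ?_ hc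
  · intro s hs
    have := h.deg s (by omega)
    rwa [hs] at this
  · rw [map_zero]
    exact Submodule.zero_mem _
  · intro x y hx hy
    rw [map_add]
    exact Submodule.add_mem _ hx hy
  · intro a x hx
    rw [map_smul]
    exact Submodule.smul_mem _ _ hx

theorem con_hom (h : Con P n σ) {m : ℕ} (hm : m < n) {c : CG P} (hc : c ∈ G P m) :
    bd (σ c) + σ (bd c) = c := by
  refine G_ind (p := fun c => bd (σ c) + σ (bd c) = c) ?_ ?_ ?_ ?_ hc
  · intro s hs
    exact h.hom s (by omega)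
  · simp
  · intro x y hx hy
    rw [map_add, map_add, map_add, map_add]
    rw [← hx, ← hy]
    conv_rhs => rw [← hx, ← hy]
    rw [hx, hy]
    abel
  · intro a x hx
    rw [map_smul, map_smul, map_smul, map_smul, ← smul_add, hx]

/-- the first part of the homotopy -/
theorem S_mem (h : Con P n σ) (s : Ch P) (hs : s.1.card = n) :
    TensorProduct.map σ LinearMap.id (AW (e s)) ∈ E P (n + 2) := by
  rw [AW_e, map_sum]
  refine Submodule.sum_mem _ fun x hx => ?_
  rw [TensorProduct.map_tmul, LinearMap.id_apply]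
  obtain ⟨h1, h2, h3⟩ := card_lo_hi s hx
  by_cases h4 : (lo s x).1.card < n
  · exact ten_mem (i := (lo s x).1.card + 1) (j := (hi s x).1.card) (by omega) h3 (by omega)
      (h.deg _ h4) (e_mem rfl)
  · rw [h.zero _ (by omega), TensorProduct.zero_tmul]
    exact Submodule.zero_mem _

/-- the projection to the cycles -/
theorem pi_cyc (hA : T_TA) (h : Con P n σ) (hn : 1 ≤ n) {c : CG P} (hc : c ∈ G P n) :
    c - σ (bd c) ∈ G P n ∧ bd (c - σ (bd c)) = 0 := by
  obtain ⟨m, rfl⟩ : ∃ m, n = m + 1 := ⟨n - 1, by omega⟩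
  have h1 := bd_G hc
  refine ⟨Submodule.sub_mem _ hc (con_deg h (by omega) h1), ?_⟩
  have h2 := con_hom h (by omega) h1
  rw [hA, map_zero, add_zero] at h2
  rw [map_sub, h2, sub_self]

theorem D2_pi (hn : 2 ≤ n) {a w : CG P} (ha : a ∈ G P n) (ha0 : bd a = 0) (hw : w ∈ G P 2) :
    D2 ((-1 : ℚ) ^ (n + 1) • (a ⊗ₜ[ℚ] w)) = a ⊗ₜ[ℚ] bd w := by
  rw [map_smul, D2_tmul, bp_G hn ha, ha0, TensorProduct.zero_tmul, zero_add, om_G ha,
    bp_G le_rfl hw, ← TensorProduct.smul_tmul', smul_smul, ← pow_add, ← two_mul, pow_mul]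
  simp

/-- points are homologous -/
theorem pts (hV : Van P n) (hn : 2 ≤ n) {a b : CG P} (ha : a ∈ G P 1) (hb : b ∈ G P 1)
    (h : bd a = bd b) : ∃ w ∈ G P 2, bd w = a - b := by
  refine hV 1 (by omega) (a - b) (Submodule.sub_mem _ ha hb) ?_
  rw [map_sub, h, sub_self]

/-- the homotopy, for all chains -/
theorem homotopy (hA : T_TA) (hN : T_TN) (hn : 2 ≤ n) (hV : Van P n) (h : Con P n σ) (v : P)
    {c : CG P} (hc : c ∈ G P n) : ∃ Y ∈ E P (n + 2), D2 Y =
      AW c - σ (e nil) ⊗ₜ[ℚ] c - (c - σ (bd c)) ⊗ₜ[ℚ] e (pt v) -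
        TensorProduct.map σ LinearMap.id (AW (bd c)) := by
  refine G_ind (p := fun c => ∃ Y ∈ E P (n + 2), D2 Y =
      AW c - σ (e nil) ⊗ₜ[ℚ] c - (c - σ (bd c)) ⊗ₜ[ℚ] e (pt v) -
        TensorProduct.map σ LinearMap.id (AW (bd c))) ?_ ?_ ?_ ?_ hc
  · intro s hs
    have hne : s.1.Nonempty := Finset.card_pos.mp (by omega)
    obtain ⟨m, hm, hmax⟩ := s.1.exists_maximal hne
    have hmx : ∀ y ∈ s.1, y ≤ m := by
      intro y hy
      rcases s.2.total (Finset.mem_coe.2 hy) (Finset.mem_coe.2 hm) with h1 | h1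
      · exact h1
      · exact hmax hy h1
    have h1 := hN P n σ hn h s m hs hm hmx
    have hs' := e_mem hs
    obtain ⟨p1, p2⟩ := pi_cyc hA h (by omega) hs'
    obtain ⟨w, hw, hbw⟩ := pts hV hn (e_mem (s := pt m) rfl) (e_mem (s := pt v) rfl)
      (by rw [bd_pt, bd_pt])
    have h2 := D2_pi hn p1 p2 hw
    refine ⟨TensorProduct.map σ LinearMap.id (AW (e s)) + (-1 : ℚ) ^ (n + 1) •
      ((e s - σ (bd (e s))) ⊗ₜ[ℚ] w), ?_, ?_⟩
    · refine Submodule.add_mem _ (S_mem h s hs) (Submodule.smul_mem _ _ ?_)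
      exact ten_mem (i := n) (j := 2) (by omega) (by omega) rfl p1 hw
    · rw [map_add, h2, hbw, TensorProduct.tmul_sub, eq_sub_of_add_eq h1]
      abel
  · refine ⟨0, Submodule.zero_mem _, ?_⟩
    simp
  · rintro x y ⟨Y, hY, h1⟩ ⟨Y', hY', h2⟩
    refine ⟨Y + Y', Submodule.add_mem _ hY hY', ?_⟩
    rw [map_add, h1, h2]
    simp only [map_add, TensorProduct.tmul_add, TensorProduct.add_tmul, TensorProduct.sub_tmul]
    abel
  · rintro a x ⟨Y, hY, h1⟩
    refine ⟨a • Y, Submodule.smul_mem _ _ hY, ?_⟩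
    rw [map_smul, h1]
    simp only [map_smul, TensorProduct.tmul_smul, TensorProduct.sub_tmul, smul_sub,
      TensorProduct.smul_tmul']

end

/-- chain maps of two variables on `E` -/
theorem mu_E {P Q : Type} [PartialOrder P] [PartialOrder Q] {F : P × P →o Q}
    {μ : CC P →ₗ[ℚ] CG Q} (hμ : Mu F μ) {k : ℕ} (hk : 2 ≤ k) {Y : CC P} (hY : Y ∈ E P (k + 1)) :
    μ Y ∈ G Q k ∧ bd (μ Y) = μ (D2 Y) := by
  unfold E at hY
  induction hY using Submodule.span_induction with
  | mem x hx =>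
    obtain ⟨s, t, hs, ht, hc, rfl⟩ := hx
    refine ⟨?_, hμ.com s t hs ht (by omega)⟩
    have h1 := hμ.car s t hs ht
    refine Finsupp.supported_mono ?_ h1
    rintro w ⟨hw, -⟩
    change w.1.card = k
    omega
  | zero => exact ⟨by rw [map_zero]; exact Submodule.zero_mem _, by simp⟩
  | add x y _ _ h1 h2 =>
    exact ⟨by rw [map_add]; exact Submodule.add_mem _ h1.1 h2.1,
      by rw [map_add, map_add, h1.2, h2.2, map_add, map_add]⟩
  | smul a x _ h1 =>
    exact ⟨by rw [map_smul]; exact Submodule.smul_mem _ _ h1.1,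
      by rw [map_smul, map_smul, h1.2, map_smul, map_smul]⟩

/-- TO: additivity on cycles -/
theorem pf_TO (hA : T_TA) (_hI : T_TI) (_hJ : T_TJ) (hM : T_TM) (hN : T_TN) : T_TO := by
  intro P Q _ _ F μ n hn hμ hV z hz hz0 u v
  obtain ⟨σ, hσ⟩ := hM P n hV
  obtain ⟨Y, hY, h1⟩ := homotopy hA hN hn hV hσ v hz
  rw [hz0, map_zero, map_zero, map_zero, sub_zero, sub_zero] at h1
  have hnil : bd (σ (e (nil : Ch P))) = e nil := by
    have := hσ.hom nil (by
      have : (nil : Ch P).1.card = 0 := rfl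
      omega)
    rwa [bd_nil, map_zero, add_zero] at this
  obtain ⟨w, hw, hbw⟩ := pts (P := P) hV hn (a := σ (e nil)) (b := e (pt u))
    (con_deg hσ (m := 0) (by omega) (e_mem rfl)) (e_mem (s := pt u) rfl) (by rw [hnil, bd_pt])
  have h2 : D2 (w ⊗ₜ[ℚ] z) = σ (e nil) ⊗ₜ[ℚ] z - e (pt u) ⊗ₜ[ℚ] z := by
    rw [D2_tmul, bp_G le_rfl hw, bp_G hn hz, hz0, TensorProduct.tmul_zero, add_zero, hbw,
      TensorProduct.sub_tmul]
  have h3 : w ⊗ₜ[ℚ] z ∈ E P (n + 2) := ten_mem (i := 2) (j := n) (by omega) (by omega)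
    (by omega) hw hz
  obtain ⟨h4, h5⟩ := mu_E hμ (k := n + 1) (by omega) (Submodule.add_mem _ hY h3)
  refine ⟨μ (Y + w ⊗ₜ[ℚ] z), h4, ?_⟩
  rw [h5, map_add, h1, h2, ← map_sub, ← map_sub]
  congr 1
  abel

end Pool.Agent.H35.HN
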